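import Pool.Agent.Lib.MP_f5d53e_lc.Spectrum

/-!
Cofinalities of ultraproducts and the character spectrum of a strong limit cardinal of countable
cofinality.

Let `X` have strong limit cardinality `λ > ω` of countable cofinality, let `U` be a uniform
ultrafilter on `X`, let `c n` be regular cardinals and let `D` be an ultrafilter on the natural
numbers such that Galvin's property `Gal(U, c n, c n)` fails for `D`-almost all `n` (this is the
case for example if some map sends `U` to a uniform ultrafilter on a set of size `c n`). Then the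
cofinality of the ultraproduct of the `c n` modulo `D` is at most the character of `U` or belongs
to the character spectrum of `λ`.
-/

namespace Pool.Agent.Results.MP_f5d53e_lc.GalvinScale

universe u

open Cardinal Filter Pool.Agent.Lib.MP_f5d53e_lc

/-- The cofinality of the ultraproduct is at most `Ch(U)` or in the spectrum. -/
theorem result {X : Type u} (hl : (#X).IsStrongLimit) (h0 : ℵ₀ < #X) (hcof : (#X).ord.cof = ℵ₀)
    (U : Ultrafilter X) (hU : Uniform U) (D : Ultrafilter ℕ) (c : ℕ → Cardinal.{u})
    (hc : ∀ n, (c n).IsRegular) (hg : ∀ᶠ n in (D : Filter ℕ), ¬ Gal U (c n) (c n)) :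
    cofProd D c ≤ Ch U ∨ cofProd D c ∈ Sp (#X) := by
  rcases le_or_gt (cofProd D c) (Ch U) with h | h
  · exact Or.inl h
  · right
    have hfam : ∀ n, ∃ A : (c n).ord.ToType → Set X, (∀ ξ, A ξ ∈ U) ∧
        (¬ Gal U (c n) (c n) → ∀ b ∈ U, ∃ η : (c n).ord.ToType, ∀ ξ, b ⊆ A ξ → ξ < η) := by
      intro n
      by_cases hn : Gal U (c n) (c n)
      · exact ⟨fun _ => Set.univ, fun _ => Filter.univ_mem, fun h => absurd hn h⟩
      · obtain ⟨A, hA, hb⟩ := exists_family U (c n) (hc n) hn
        exact ⟨A, hA, fun _ => hb⟩
    choose A hA hb using hfam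
    have hne : ∀ n, Nonempty (c n).ord.ToType := by
      intro n
      rw [← mk_ne_zero_iff]
      simpa using (hc n).ne_zero
    obtain ⟨q, hq⟩ := exists_tendsto U hU h0.le hcof
    have h1 := cofProd_eq_lcf U A D hA (hg.mono fun n hn => hb n hn) hne q hq h
    have h2 := max_mem_Sp hl h0 hcof U hU
    rw [← h1, max_eq_right h.le] at h2
    exact h2

end Pool.Agent.Results.MP_f5d53e_lc.GalvinScale
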