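import Pool.Agent.Lib.MP_f5d53e_lc.Sums

/-!
Characters of sums of ultrafilters over a strong limit cardinal.

Let `l` be a strong limit cardinal, `E` an ultrafilter on a set `I` with fewer than `l` elements,
`V i` ultrafilters, `t < l`, and `c i` cardinals which tend to `l` along `E`. If Galvin's
property `Gal(V i, t, 2 ^ c i)` fails for `E`-almost all `i`, then the sum of the `V i` along `E`
has character at least `2 ^ l`.
-/

namespace Pool.Agent.Results.MP_f5d53e_lc.GalvinSums

universe u

open Cardinal Filter Pool.Agent.Lib.MP_f5d53e_lc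

/-- The sum has character at least `2 ^ l`. -/
theorem result {l : Cardinal.{u}} (hl : l.IsStrongLimit) {I : Type u} (hI : #I < l)
    (E : Ultrafilter I) {X : I → Type u} (V : ∀ i, Ultrafilter (X i)) (c : I → Cardinal.{u})
    (hlim : ∀ μ < l, ∀ᶠ i in (E : Filter I), μ ≤ c i) (t : Cardinal.{u}) (ht : t < l)
    (hG : ∀ᶠ i in (E : Filter I), ¬ Gal (V i) t (2 ^ c i)) : 2 ^ l ≤ Ch (sum E V) :=
  two_power_le_Ch_sum hl hI E V c hlim t ht hG

end Pool.Agent.Results.MP_f5d53e_lc.GalvinSums
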