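import Pool.Agent.Lib.MP_f5d53e_lc.Count

/-!
Small characters at a strong limit singular cardinal force Galvin's property at small sizes.

Let `l` be a strong limit singular cardinal and `U` an ultrafilter which is closed under
intersections of fewer than `cf l` sets (no condition if `cf l` is countable). If the successor
of the character of `U` is below `2 ^ l`, then for every `t < l` there is `m < l` such that among
any `m` members of `U` there are `t` whose intersection is in `U`.

If `k₀ < k₁ < k₂ ≤ 2 ^ l` is a gap of the character spectrum of `l`, then every uniform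
ultrafilter of character `k₀` satisfies the hypothesis, as `k₀⁺ ≤ k₁ < k₂`.
-/

namespace Pool.Agent.Results.MP_f5d53e_lc.GalvinWitness

universe u

open Cardinal Pool.Agent.Lib.MP_f5d53e_lc

/-- If `Ch(U)⁺ < 2 ^ l` then `Gal(U, t, m)` for every `t < l` and some `m < l`. -/
theorem result {X : Type u} (U : Ultrafilter X) (l : Cardinal.{u}) (hl : l.IsStrongLimit)
    (hs : l.ord.cof < l)
    (hU : l.ord.cof = ℵ₀ ∨ CardinalInterFilter (U : Filter X) l.ord.cof)
    (hch : Order.succ (Ch U) < 2 ^ l) (t : Cardinal.{u}) (ht : t < l) :
    ∃ m < l, Gal U t m := by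
  by_contra hcon
  push Not at hcon
  obtain ⟨B, hB, hBc⟩ := exists_base U
  have hU' : CardinalInterFilter (U : Filter X) l.ord.cof := by
    rcases hU with h | h
    · rw [h]
      exact Filter.cardinalInterFilter_aleph0 _
    · exact h
  have h1 := two_power_le_succ_base U hl hs hU' ht hcon B hB
  rw [hBc] at h1
  exact absurd hch (not_lt.2 h1)

end Pool.Agent.Results.MP_f5d53e_lc.GalvinWitness
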