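import Pool.Agent.Lib.MP_f5d53e_lc.Indec

/-!
Ultrafilters of small character over a strong limit cardinal of countable cofinality.

Let `l = ℵ_ o` be a strong limit cardinal of countable cofinality which is not a fixed point of the
aleph function (`o` has fewer than `l` elements), and let `U` be a uniform ultrafilter over `l`
whose character has its successor below `2 ^ l`; every ultrafilter whose character is the lower end
of a gap of the character spectrum of `l` is of this kind. Then Galvin's property `Gal(U, c, c)`
holds for regular cardinals `c` arbitrarily large below `l`; in particular `U` has no image which is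
a uniform ultrafilter on such a `c`. If `l = ℵ_(o' + ω)`, for example `l = ℵ_ω`, then `U` is
indecomposable: there is a map `π` to a set of size below `l` such that every map from `l` to a
set of size below `l` is a function of `π` on a set of `U`.
-/

namespace Pool.Agent.Results.MP_f5d53e_lc.Indecomposable

universe u

open Cardinal Filter Pool.Agent.Lib.MP_f5d53e_lc

/-- Ultrafilters of small character are indecomposable. -/
theorem result {X : Type u} {o : Ordinal.{u}} (hl : (#X).IsStrongLimit) (h0 : ℵ₀ < #X)
    (hcof : (#X).ord.cof = ℵ₀) (ho : #X = Cardinal.aleph o) (hoc : o.card < #X)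
    (U : Ultrafilter X) (hU : Uniform U) (hch : Order.succ (Ch U) < 2 ^ #X) :
    (∀ μ < #X, ∃ c : Cardinal.{u}, c.IsRegular ∧ μ < c ∧ c < #X ∧ Gal U c c) ∧
      ∀ o' : Ordinal.{u}, o = o' + Ordinal.omega0 →
        ∃ (Y : Type u) (π : X → Y), #Y < #X ∧
          ∀ (Z : Type u), #Z < #X → ∀ f : X → Z, ∃ g : Y → Z, ∀ᶠ x in (U : Filter X), f x = g (π x) := by
  refine ⟨fun μ hμ => exists_gal hl h0 hcof ho hoc U hU hch μ hμ, fun o' ho' => ?_⟩
  subst ho'
  obtain ⟨θ, hθ0, hθ, h⟩ := exists_bound hl h0 hcof ho U hU hch
  exact exists_finest U hl hθ hθ0 h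

end Pool.Agent.Results.MP_f5d53e_lc.Indecomposable
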